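import Pool.Agent.H76.NP.CHN

/-!
Assembly for S09022: the question of Nevo and Petersen has a negative answer.
-/

set_option autoImplicit false

open Classical Polynomial

namespace Pool.Agent.H76.NP

theorem poly_id :
    (1 - (X : ℤ[X])) ^ 6 + 24 * (X * (1 - X) ^ 5) + 201 * (X ^ 2 * (1 - X) ^ 4) + 743 * (X ^ 3 * (1 - X) ^ 3)
      + 1344 * (X ^ 4 * (1 - X) ^ 2) + 1167 * (X ^ 5 * (1 - X)) + 389 * X ^ 6 =
    (1 + (X : ℤ[X])) ^ 6 + 12 * X * (1 + X) ^ 4 + 33 * X ^ 2 * (1 + X) ^ 2 + X ^ 3 := by ring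

theorem asm (hCPX : T_CPX) (hSPH : T_SPH) (hFIN : T_FIN) (hCNT : T_CNT) (hGAM : T_GAM) (hMAN : T_MAN)
    (hCHN : T_CHN) :
    ¬ (∀ (n d : ℕ) (K : Geometry.SimplicialComplex ℝ (EuclideanSpace ℝ (Fin n))),
      K.faces.Finite →
      Nonempty (K.space ≃ₜ Metric.sphere (0 : EuclideanSpace ℝ (Fin d)) 1) →
      (∀ s : Finset (EuclideanSpace ℝ (Fin n)), s.Nonempty →
        (∀ x ∈ s, ∀ y ∈ s, ({x, y} : Finset (EuclideanSpace ℝ (Fin n))) ∈ K.faces) →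
        s ∈ K.faces) →
      ∃ (m : ℕ) (Γ : Finset (Finset (Fin m))),
        (∀ σ ∈ Γ, ∀ τ : Finset (Fin m), τ ⊆ σ → τ ∈ Γ) ∧
        (∀ s : Finset (Fin m), (∀ x ∈ s, ∀ y ∈ s, ({x, y} : Finset (Fin m)) ∈ Γ) → s ∈ Γ) ∧
        (∀ σ ∈ Γ, 2 * σ.card ≤ d) ∧
        ((1 - (X : ℤ[X])) ^ d +
            ∑ᶠ (σ : Finset (EuclideanSpace ℝ (Fin n))) (_ : σ ∈ K.faces),
              (X : ℤ[X]) ^ σ.card * (1 - (X : ℤ[X])) ^ (d - σ.card)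
          = ∑ σ ∈ Γ, (X : ℤ[X]) ^ σ.card * (1 + (X : ℤ[X])) ^ (d - 2 * σ.card))) := by
  intro H
  obtain ⟨hfan, hcx⟩ := hCHN
  obtain ⟨K, hK1, hK2⟩ := hCPX 24 (ofMasks MF) hcx
  have hdim : Module.finrank ℝ (((Fin 4 → ℝ) × ℝ) × ℝ) = 6 := by
    simp
  have hsp := hSPH 24 6 (((Fin 4 → ℝ) × ℝ) × ℝ) inferInstance inferInstance inferInstance (ofMasks MF) p6 hdim hfan
    K.space hK2
  obtain ⟨hfin, hflag, hsum⟩ := hFIN 24 (ofMasks MF) hcx K hK1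
  obtain ⟨m, Γ, h1, h2, h3, h4⟩ := H 24 6 K hfin hsp (hflag _)
  have hs := (hsum (fun k => (X : ℤ[X]) ^ k * (1 - (X : ℤ[X])) ^ (6 - k))).trans
    (hCNT (fun k => (X : ℤ[X]) ^ k * (1 - (X : ℤ[X])) ^ (6 - k)))
  have hlhs : (1 - (X : ℤ[X])) ^ 6 +
            ∑ᶠ (σ : Finset (EuclideanSpace ℝ (Fin 24))) (_ : σ ∈ K.faces),
              (X : ℤ[X]) ^ σ.card * (1 - (X : ℤ[X])) ^ (6 - σ.card) =
      (1 + (X : ℤ[X])) ^ 6 + 12 * X * (1 + X) ^ 4 + 33 * X ^ 2 * (1 + X) ^ 2 + X ^ 3 := by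
    rw [← poly_id]
    calc (1 - (X : ℤ[X])) ^ 6 + ∑ᶠ (σ : Finset (EuclideanSpace ℝ (Fin 24))) (_ : σ ∈ K.faces),
              (X : ℤ[X]) ^ σ.card * (1 - (X : ℤ[X])) ^ (6 - σ.card)
        = (X : ℤ[X]) ^ 0 * (1 - (X : ℤ[X])) ^ (6 - 0) +
          ∑ᶠ (σ : Finset (EuclideanSpace ℝ (Fin 24))) (_ : σ ∈ K.faces),
              (X : ℤ[X]) ^ σ.card * (1 - (X : ℤ[X])) ^ (6 - σ.card) := by
          rw [pow_zero, one_mul]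
      _ = (X : ℤ[X]) ^ 0 * (1 - (X : ℤ[X])) ^ (6 - 0) + 24 * (X ^ 1 * (1 - (X : ℤ[X])) ^ (6 - 1))
          + 201 * (X ^ 2 * (1 - (X : ℤ[X])) ^ (6 - 2)) + 743 * (X ^ 3 * (1 - (X : ℤ[X])) ^ (6 - 3))
          + 1344 * (X ^ 4 * (1 - (X : ℤ[X])) ^ (6 - 4)) + 1167 * (X ^ 5 * (1 - (X : ℤ[X])) ^ (6 - 5))
          + 389 * (X ^ 6 * (1 - (X : ℤ[X])) ^ (6 - 6)) := hs
      _ = _ := by
          norm_num
  rw [hlhs] at h4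
  obtain ⟨g1, g2, g3⟩ := hGAM m Γ h3 h4
  have hI : ∀ s : Finset (Fin m),
      (∀ x ∈ s, ∀ y ∈ s, (@insert (Fin m) (Finset (Fin m)) _ x {y}) ∈ Γ) → s ∈ Γ := by
    intro s hs
    apply h2
    intro x hx y hy
    convert! hs x hx y hy
  exact hMAN m Γ h1 hI (by convert! g1) (by convert! g2) (by convert! g3)

end Pool.Agent.H76.NP
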