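import Pool.Agent.H76.NP.SUB

/-!
Row CHN of nvp_modules: from the fan of `Q` in dimension 4 to the fan of the example in dimension 6, by two
suspensions and eight edge subdivisions.
-/

set_option autoImplicit false
set_option maxRecDepth 100000

namespace Pool.Agent.H76.NP

/-- masks of stage 1 -/
def M1 : List ℕ :=
  [15613, 15354, 14325, 15851, 15319, 14255, 15711, 15039, 14206, 13238, 13677, 14555, 8191, 12287]

/-- masks of stage 2 -/
def M2 : List ℕ :=
  [64765, 64506, 63477, 65003, 64471, 63407, 64863, 64191, 63358, 62390, 62829, 63707, 57343, 61439, 32767,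
   49151]

/-- masks of stage 3 -/
def M3 : List ℕ :=
  [130301, 130042, 129013, 130539, 130007, 63407, 97631, 64191, 128894, 62390, 128365, 129243, 122879, 126975,
   32767, 114623, 114015]

/-- masks of stage 4 -/
def M4 : List ℕ :=
  [261373, 130042, 255989, 130539, 261079, 194479, 228703, 195263, 259966, 193462, 259437, 129243, 253947,
   126975, 163839, 245695, 245087, 251893]

/-- masks of stage 5 -/
def M5 : List ℕ :=
  [523517, 392186, 518133, 392683, 523223, 456623, 228703, 424639, 259966, 455606, 259437, 391387, 516091,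
   389119, 163839, 507711, 245087, 514037, 441023]

/-- masks of stage 6 -/
def M6 : List ℕ :=
  [523517, 912378, 518133, 916971, 1047511, 980911, 752991, 948927, 784254, 979894, 259437, 915675, 1040377,
   389119, 688127, 1031999, 769375, 514037, 965311, 908282]

/-- masks of stage 7 -/
def M7 : List ℕ :=
  [1572093, 912378, 518133, 916971, 2096087, 2029487, 1801567, 1997503, 1832830, 2028470, 1308013, 915675,
   1957881, 389119, 1736703, 2080575, 1817951, 1558517, 2013887, 908282, 1562609]

/-- masks of stage 8 -/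
def M8 : List ℕ :=
  [3669245, 3009530, 2615285, 3014123, 4193239, 2029487, 1801567, 1997503, 3929982, 2028470, 3405165, 3012827,
   4055033, 2486271, 1736703, 4112191, 3882335, 3655669, 2013887, 3005434, 3659761, 3915039]

/-- masks of stage 9 -/
def M9 : List ℕ :=
  [7863549, 7203834, 6809589, 7208427, 8387543, 2029487, 1801567, 1997503, 8124286, 2028470, 7599469, 7207131,
   8249337, 6680575, 1736703, 6209343, 3882335, 7849973, 2013887, 7199738, 7854065, 8076575, 8043807]

theorem e1 : ∀ x y, susp (ofMasks M0) 12 13 x y = ofMasks M1 x y := by decide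

theorem e2 : ∀ x y, susp (ofMasks M1) 14 15 x y = ofMasks M2 x y := by decide

theorem e3 : ∀ x y, sub (ofMasks M2) 6 15 16 x y = ofMasks M3 x y := by decide

theorem e4 : ∀ x y, sub (ofMasks M3) 2 12 17 x y = ofMasks M4 x y := by decide

theorem e5 : ∀ x y, sub (ofMasks M4) 7 15 18 x y = ofMasks M5 x y := by decide

theorem e6 : ∀ x y, sub (ofMasks M5) 1 12 19 x y = ofMasks M6 x y := by decide

theorem e7 : ∀ x y, sub (ofMasks M6) 12 17 20 x y = ofMasks M7 x y := by decide

theorem e8 : ∀ x y, sub (ofMasks M7) 15 16 21 x y = ofMasks M8 x y := by decide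

theorem e9 : ∀ x y, sub (ofMasks M8) 15 21 22 x y = ofMasks M9 x y := by decide

theorem e10 : ∀ x y, sub (ofMasks M9) 2 17 23 x y = ofMasks MF x y := by decide

/-- the points after one suspension -/
def p5 (v : Fin 24) : (Fin 4 → ℝ) × ℝ := (p4 v, ((co v 4 : ℤ) : ℝ))

theorem co0 : ∀ v : Fin 24, ofMasks M0 v v = true → co v 4 = 0 := by decide

theorem co1 : ∀ v : Fin 24, ofMasks M1 v v = true → co v 5 = 0 := by decide

theorem co12 : ∀ i : Fin 4, co 12 i.val = 0 ∧ co 13 i.val = 0 ∧ co 14 i.val = 0 ∧ co 15 i.val = 0 := by decide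

theorem add_p6 {u v w : Fin 24} (h : ∀ i : Fin 6, co w i.val = co u i.val + co v i.val) : p6 w = p6 u + p6 v := by
  have h4 := h 4
  have h5 := h 5
  have hh : ∀ i : Fin 4, co w i.val = co u i.val + co v i.val := fun i => h ⟨i.val, by omega⟩
  refine Prod.ext (Prod.ext ?_ ?_) ?_
  · funext i
    show ((co w i.val : ℤ) : ℝ) = ((co u i.val : ℤ) : ℝ) + ((co v i.val : ℤ) : ℝ)
    rw [hh i]; push_cast; rfl
  · show ((co w 4 : ℤ) : ℝ) = ((co u 4 : ℤ) : ℝ) + ((co v 4 : ℤ) : ℝ)
    have h4' : co w 4 = co u 4 + co v 4 := h4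
    rw [h4']; push_cast; rfl
  · show ((co w 5 : ℤ) : ℝ) = ((co u 5 : ℤ) : ℝ) + ((co v 5 : ℤ) : ℝ)
    have h5' : co w 5 = co u 5 + co v 5 := h5
    rw [h5']; push_cast; rfl

/-- one step of the chain -/
theorem step {M M' : List ℕ} {u v w : Fin 24} (hF : Fan (ofMasks M) p6 ∧ IsCx (ofMasks M))
    (huv : u ≠ v) (hA : ofMasks M u v = true) (hw : ∀ y, ofMasks M w y = false)
    (hp : ∀ i : Fin 6, co w i.val = co u i.val + co v i.val)
    (he : ∀ x y, sub (ofMasks M) u v w x y = ofMasks M' x y) : Fan (ofMasks M') p6 ∧ IsCx (ofMasks M') := by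
  have h := pf_SUB (Fin 24) (((Fin 4 → ℝ) × ℝ) × ℝ) inferInstance inferInstance inferInstance inferInstance
    (ofMasks M) p6 u v w hF.2 huv hA hw (add_p6 hp) hF.1
  have he' : sub (ofMasks M) u v w = ofMasks M' := funext fun x => funext fun y => he x y
  rw [he'] at h
  exact h

theorem pf_CHN (hU : T_SUS) (hQ : T_QF) : T_CHN := by
  -- first suspension
  have h1 := hU (Fin 24) (Fin 4 → ℝ) inferInstance inferInstance inferInstance inferInstance
    (ofMasks M0) p4 p5 12 13 hQ.2 (by decide) (by decide) (by decide)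
    (fun v hv => by
      show (p4 v, ((co v 4 : ℤ) : ℝ)) = (p4 v, 0)
      rw [co0 v hv]; simp)
    (by
      refine Prod.ext ?_ ?_
      · funext i
        show ((co 12 i.val : ℤ) : ℝ) = 0
        rw [(co12 i).1]; simp
      · show ((co 12 4 : ℤ) : ℝ) = 1
        have : co 12 4 = 1 := by decide
        rw [this]; simp)
    (by
      refine Prod.ext ?_ ?_
      · funext i
        show ((co 13 i.val : ℤ) : ℝ) = 0
        rw [(co12 i).2.1]; simp
      · show ((co 13 4 : ℤ) : ℝ) = -1
        have : co 13 4 = -1 := by decide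
        rw [this]; simp)
    hQ.1
  have e1' : susp (ofMasks M0) 12 13 = ofMasks M1 := funext fun x => funext fun y => e1 x y
  rw [e1'] at h1
  -- second suspension
  have h2 := hU (Fin 24) ((Fin 4 → ℝ) × ℝ) inferInstance inferInstance inferInstance inferInstance
    (ofMasks M1) p5 p6 14 15 h1.2 (by decide) (by decide) (by decide)
    (fun v hv => by
      show ((p4 v, ((co v 4 : ℤ) : ℝ)), ((co v 5 : ℤ) : ℝ)) = ((p4 v, ((co v 4 : ℤ) : ℝ)), 0)
      rw [co1 v hv]; simp)
    (by
      refine Prod.ext (Prod.ext ?_ ?_) ?_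
      · funext i
        show ((co 14 i.val : ℤ) : ℝ) = 0
        rw [(co12 i).2.2.1]; simp
      · show ((co 14 4 : ℤ) : ℝ) = 0
        have : co 14 4 = 0 := by decide
        rw [this]; simp
      · show ((co 14 5 : ℤ) : ℝ) = 1
        have : co 14 5 = 1 := by decide
        rw [this]; simp)
    (by
      refine Prod.ext (Prod.ext ?_ ?_) ?_
      · funext i
        show ((co 15 i.val : ℤ) : ℝ) = 0
        rw [(co12 i).2.2.2]; simp
      · show ((co 15 4 : ℤ) : ℝ) = 0
        have : co 15 4 = 0 := by decide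
        rw [this]; simp
      · show ((co 15 5 : ℤ) : ℝ) = -1
        have : co 15 5 = -1 := by decide
        rw [this]; simp)
    h1.1
  have e2' : susp (ofMasks M1) 14 15 = ofMasks M2 := funext fun x => funext fun y => e2 x y
  rw [e2'] at h2
  have h3 : Fan (ofMasks M3) p6 ∧ IsCx (ofMasks M3) :=
    step (u := 6) (v := 15) (w := 16) h2 (by decide) (by decide) (by decide) (by decide) e3
  have h4 : Fan (ofMasks M4) p6 ∧ IsCx (ofMasks M4) :=
    step (u := 2) (v := 12) (w := 17) h3 (by decide) (by decide) (by decide) (by decide) e4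
  have h5 : Fan (ofMasks M5) p6 ∧ IsCx (ofMasks M5) :=
    step (u := 7) (v := 15) (w := 18) h4 (by decide) (by decide) (by decide) (by decide) e5
  have h6 : Fan (ofMasks M6) p6 ∧ IsCx (ofMasks M6) :=
    step (u := 1) (v := 12) (w := 19) h5 (by decide) (by decide) (by decide) (by decide) e6
  have h7 : Fan (ofMasks M7) p6 ∧ IsCx (ofMasks M7) :=
    step (u := 12) (v := 17) (w := 20) h6 (by decide) (by decide) (by decide) (by decide) e7
  have h8 : Fan (ofMasks M8) p6 ∧ IsCx (ofMasks M8) :=
    step (u := 15) (v := 16) (w := 21) h7 (by decide) (by decide) (by decide) (by decide) e8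
  have h9 : Fan (ofMasks M9) p6 ∧ IsCx (ofMasks M9) :=
    step (u := 15) (v := 21) (w := 22) h8 (by decide) (by decide) (by decide) (by decide) e9
  have h10 : Fan (ofMasks MF) p6 ∧ IsCx (ofMasks MF) :=
    step (u := 2) (v := 17) (w := 23) h9 (by decide) (by decide) (by decide) (by decide) e10
  exact h10

end Pool.Agent.H76.NP
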