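import Mathlib

/-!
Definitions for the counterexample to the question of Nevo and Petersen (MP_5d910f_co, frozen negation S09022):
a flag 5-sphere with 24 vertices and gamma polynomial 1 + 12 x + 33 x^2 + x^3.
Graphs are Boolean relations `A` on a finite type; `A x x = true` says that `x` is a vertex; a face is a set of
vertices which are pairwise related (the clique complex).
-/

set_option autoImplicit false

namespace Pool.Agent.H76.NP

/-- `c` is a nonnegative coefficient vector whose support is a clique of `A` and which represents `x`. -/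
def Rep {V E : Type*} [Fintype V] [AddCommGroup E] [Module ℝ E] (A : V → V → Bool) (p : V → E) (x : E)
    (c : V → ℝ) : Prop :=
  (∀ v, 0 ≤ c v) ∧ (∀ u v, c u ≠ 0 → c v ≠ 0 → A u v = true) ∧ ∑ v, c v • p v = x

/-- The cones over the cliques of `A`, with rays `p v`, form a complete simplicial fan: every point has exactly one
representation. -/
def Fan {V E : Type*} [Fintype V] [AddCommGroup E] [Module ℝ E] (A : V → V → Bool) (p : V → E) : Prop :=
  ∀ x : E, ∃! c : V → ℝ, Rep A p x c

/-- `A` is symmetric, and related elements are vertices. -/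
structure IsCx {V : Type*} (A : V → V → Bool) : Prop where
  symm : ∀ x y, A x y = A y x
  refl : ∀ x y, A x y = true → A x x = true

/-- Edge subdivision of the clique complex: the edge `u v` is removed, the new vertex `w` is joined to all vertices
which are joined (or equal) to `u` and to `v`. -/
def sub {V : Type*} [DecidableEq V] (A : V → V → Bool) (u v w : V) : V → V → Bool := fun x y =>
  if x = w then (if y = w then true else A u y && A v y)
  else if y = w then A u x && A v x
  else if (x = u ∧ y = v) ∨ (x = v ∧ y = u) then false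
  else A x y

/-- Suspension with the two new vertices `n` and `s`. -/
def susp {V : Type*} [DecidableEq V] (A : V → V → Bool) (n s : V) : V → V → Bool := fun x y =>
  if x = n ∨ x = s then (if y = n ∨ y = s then decide (x = y) else A y y)
  else if y = n ∨ y = s then A x x
  else A x y

/-- Faces of the clique complex. -/
def Face {V : Type*} (A : V → V → Bool) (σ : Finset V) : Prop := ∀ x ∈ σ, ∀ y ∈ σ, A x y = true

instance {V : Type*} (A : V → V → Bool) : DecidablePred (Face A) := fun σ =>
  inferInstanceAs (Decidable (∀ x ∈ σ, ∀ y ∈ σ, A x y = true))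

/-- The relation given by a list of bit masks (bit `x` of mask `x` is set when `x` is a vertex). -/
def ofMasks (M : List ℕ) (x y : Fin 24) : Bool := (M.getD x.val 0).testBit y.val

/-- The flag 3-sphere `Q` with 12 vertices. -/
def M0 : List ℕ := [3325, 3066, 2037, 3563, 3031, 1967, 3423, 2751, 1918, 950, 1389, 2267]

/-- The final flag 5-sphere with 24 vertices. -/
def MF : List ℕ :=
  [16252157, 7203834, 15067125, 7208427, 16776151, 10418095, 10190175, 10386111, 16512894, 10417078, 15988077,
   7207131, 8249337, 6680575, 10125311, 14597951, 12270943, 16238577, 10402495, 7199738, 7854065, 16465183,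
   16432415, 15190005]

/-- coordinates of the 24 vertices in dimension 6 = 4 + 1 + 1 -/
def PT : List (List ℤ) :=
  [[1, -1, 1, 0, 0, 0], [0, 1, 0, 1, 0, 0], [0, -1, -1, -1, 0, 0], [1, 2, 1, 0, 0, 0], [-1, -1, 0, 1, 0, 0],
   [1, 1, -1, -1, 0, 0], [-2, -1, 1, 0, 0, 0], [1, 0, 0, 1, 0, 0], [-1, 0, -1, -1, 0, 0], [0, 0, -1, 0, 0, 0],
   [0, 0, 0, -1, 0, 0], [0, 0, 1, 1, 0, 0], [0, 0, 0, 0, 1, 0], [0, 0, 0, 0, -1, 0], [0, 0, 0, 0, 0, 1],
   [0, 0, 0, 0, 0, -1], [-2, -1, 1, 0, 0, -1], [0, -1, -1, -1, 1, 0], [1, 0, 0, 1, 0, -1], [0, 1, 0, 1, 1, 0],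
   [0, -1, -1, -1, 2, 0], [-2, -1, 1, 0, 0, -2], [-2, -1, 1, 0, 0, -3], [0, -2, -2, -2, 1, 0]]

/-- coordinate `i` of vertex `v` -/
def co (v : Fin 24) (i : ℕ) : ℤ := (PT.getD v.val []).getD i 0

/-- first four coordinates -/
def p4 (v : Fin 24) : Fin 4 → ℝ := fun i => ((co v i.val : ℤ) : ℝ)

/-- all six coordinates -/
def p6 (v : Fin 24) : ((Fin 4 → ℝ) × ℝ) × ℝ := ((p4 v, ((co v 4 : ℤ) : ℝ)), ((co v 5 : ℤ) : ℝ))

end Pool.Agent.H76.NP
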