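import Pool.Agent.H76.NP.Targets

/-!
Row QF of nvp_modules: the fan of `Q` in dimension 4, through the convexity criterion.
-/

set_option autoImplicit false
set_option maxRecDepth 100000

namespace Pool.Agent.H76.NP.QF

open Pool.Agent.H76.NP

/-- the 33 facets as masks -/
def FM : List ℕ :=
  [85, 149, 165, 1061, 1093, 169, 1065, 1097, 2121, 2185, 2129, 2193, 170, 298, 330, 2122, 2186, 338, 2130,
   658, 2194, 786, 674, 802, 340, 660, 788, 676, 804, 1316, 1348, 1320, 1352]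

/-- 12 times the supporting functionals -/
def LM : List (List ℤ) :=
  [[0, -12, 0, 0], [6, -12, -6, 6], [12, -6, -6, 0], [6, -3, 3, -12], [0, -6, 6, -12], [12, 0, 0, 0], [6, 0, 6,
   -12], [0, 0, 12, -12], [0, 0, 12, 0], [6, 0, 6, 6], [0, -6, 6, 6], [3, -6, 3, 9], [6, 6, -6, 6], [-6, 12,
   -6, 0], [-12, 12, 0, 0], [-6, 6, 6, 6], [3, 3, 3, 9], [-12, 6, -6, 6], [-6, 3, 3, 9], [0, 0, -12, 12], [0,
   0, 0, 12], [-8, 4, -12, 8], [4, 4, -12, 8], [-4, 8, -12, 4], [-6, -6, -6, 0], [4, -8, -12, 8], [-4, -4, -12,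
   4], [8, -4, -12, 4], [0, 0, -12, 0], [0, 0, 0, -12], [-3, -3, 3, -12], [-3, 6, 3, -12], [-6, 6, 6, -12]]

/-- 12 times the dual bases -/
def DM : List (List (List ℤ)) :=
  [[[4, -4, 4, 0], [], [0, -4, -4, -4], [], [0, -4, -4, 8], [], [-4, 0, 4, -4], [], [], [], [], []], [[2, -4,
   6, -2], [], [2, -4, -6, -2], [], [-4, -4, 0, 4], [], [], [6, 0, -6, 6], [], [], [], []], [[4, -2, 6, -4],
   [], [0, -6, -6, 0], [], [], [4, 4, 0, -4], [], [4, -2, -6, 8], [], [], [], []], [[6, -3, 3, 0], [], [0, -6,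
   -6, 0], [], [], [6, 3, -3, 0], [], [], [], [], [-6, 3, 9, -12], []], [[4, -4, 4, 0], [], [0, -6, -6, 0], [],
   [], [], [-4, -2, 2, 0], [], [], [], [0, 6, 6, -12], []], [[4, -4, 4, -4], [], [], [0, 4, 4, 0], [], [4, 0,
   -4, -4], [], [4, 0, -4, 8], [], [], [], []], [[6, -4, 2, 0], [], [], [0, 4, 4, 0], [], [6, 0, -6, 0], [],
   [], [], [], [-6, 0, 6, -12], []], [[4, -4, 4, 0], [], [], [0, 4, 4, 0], [], [], [-4, 0, 4, 0], [], [], [],
   [0, 0, 0, -12], []], [[4, -4, 4, -4], [], [], [0, 4, 4, -4], [], [], [-4, 0, 4, -4], [], [], [], [], [0, 0,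
   0, 12]], [[4, -4, 4, -4], [], [], [2, 4, 2, -2], [], [], [], [6, 0, -6, 6], [], [], [], [-6, 0, 6, 6]], [[4,
   -6, 2, -2], [], [], [], [0, -6, -6, 6], [], [-4, 0, 4, -4], [], [], [], [], [0, 6, 6, 6]], [[3, -6, 3, -3],
   [], [], [], [-3, -6, -3, 3], [], [], [6, 0, -6, 6], [], [], [], [-3, 6, 9, 3]], [[], [-6, 6, -6, 6], [], [2,
   2, 6, -2], [], [2, 2, -6, -2], [], [8, -4, 0, 4], [], [], [], []], [[], [-2, 4, -6, 8], [], [-2, 4, 6, -4],
   [], [6, 0, -6, 0], [], [], [-8, 4, 0, -4], [], [], []], [[], [-4, 4, -4, 8], [], [0, 4, 4, -4], [], [], [-4,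
   0, 4, 0], [], [-4, 4, -4, -4], [], [], []], [[], [-6, 6, -6, 6], [], [0, 4, 4, -4], [], [], [-6, 2, 2, -2],
   [], [], [], [], [6, -6, 6, 6]], [[], [-6, 6, -6, 6], [], [3, 3, 3, -3], [], [], [], [9, -3, -3, 3], [], [],
   [], [-3, -3, 9, 3]], [[], [-4, 8, 0, 4], [], [], [0, -6, -6, 6], [], [-4, 2, 6, -2], [], [-4, 2, -6, -2],
   [], [], []], [[], [-6, 9, -3, 3], [], [], [0, -6, -6, 6], [], [-6, 3, 3, -3], [], [], [], [], [6, -3, 9,
   3]], [[], [-4, 8, 0, 4], [], [], [-4, -4, 0, 4], [], [], [8, -4, 0, 4], [], [0, 0, -12, 0], [], []], [[],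
   [-4, 8, -4, 4], [], [], [-4, -4, -4, 4], [], [], [8, -4, -4, 4], [], [], [], [0, 0, 12, 0]], [[], [-4, 8, 0,
   4], [], [], [-4, -4, 0, 4], [], [], [], [-8, 4, 0, -4], [8, -4, -12, 4], [], []], [[], [-4, 8, 0, 4], [],
   [], [], [4, 4, 0, -4], [], [8, -4, 0, 4], [], [-4, -4, -12, 4], [], []], [[], [-4, 8, 0, 4], [], [], [], [4,
   4, 0, -4], [], [], [-8, 4, 0, -4], [4, -8, -12, 8], [], []], [[], [], [4, -8, 0, -4], [], [-2, -2, -6, 8],
   [], [-2, -2, 6, -4], [], [-6, 6, -6, 0], [], [], []], [[], [], [4, -8, 0, -4], [], [-4, -4, 0, 4], [], [],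
   [8, -4, 0, 4], [], [-4, 8, -12, 4], [], []], [[], [], [4, -8, 0, -4], [], [-4, -4, 0, 4], [], [], [], [-8,
   4, 0, -4], [4, 4, -12, 8], [], []], [[], [], [4, -8, 0, -4], [], [], [4, 4, 0, -4], [], [8, -4, 0, 4], [],
   [-8, 4, -12, 8], [], []], [[], [], [4, -8, 0, -4], [], [], [4, 4, 0, -4], [], [], [-8, 4, 0, -4], [0, 0,
   -12, 12], [], []], [[], [], [4, -8, -4, 0], [], [], [4, 4, -4, 0], [], [], [-8, 4, -4, 0], [], [0, 0, 12,
   -12], []], [[], [], [3, -9, -3, 0], [], [], [], [-3, -3, 3, 0], [], [-6, 6, -6, 0], [], [3, 3, 9, -12], []],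
   [[], [], [], [-3, 6, 3, 0], [], [6, 0, -6, 0], [], [], [-9, 6, -3, 0], [], [3, -6, 9, -12], []], [[], [],
   [], [-2, 6, 2, 0], [], [], [-4, 0, 4, 0], [], [-6, 6, -6, 0], [], [6, -6, 6, -12], []]]

/-- neighbouring facets -/
def NB : List (List ℕ) :=
  [[24, 0, 10, 0, 4, 0, 1, 0, 0, 0, 0, 0], [25, 0, 11, 0, 2, 0, 0, 0, 0, 0, 0, 0], [27, 0, 5, 0, 0, 1, 0, 3, 0,
   0, 0, 0], [29, 0, 6, 0, 0, 4, 0, 0, 0, 0, 2, 0], [30, 0, 7, 0, 0, 0, 3, 0, 0, 0, 0, 0], [12, 0, 0, 2, 0, 9,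
   0, 6, 0, 0, 0, 0], [31, 0, 0, 3, 0, 7, 0, 0, 0, 0, 5, 0], [32, 0, 0, 4, 0, 0, 6, 0, 0, 0, 8, 0], [15, 0, 0,
   10, 0, 0, 9, 0, 0, 0, 0, 7], [16, 0, 0, 11, 0, 0, 0, 8, 0, 0, 0, 5], [18, 0, 0, 0, 8, 0, 11, 0, 0, 0, 0, 0],
   [20, 0, 0, 0, 9, 0, 0, 10, 0, 0, 0, 1], [0, 5, 0, 22, 0, 16, 0, 13, 0, 0, 0, 0], [0, 31, 0, 23, 0, 14, 0, 0,
   12, 0, 0, 0], [0, 32, 0, 17, 0, 0, 13, 0, 15, 0, 0, 0], [0, 8, 0, 18, 0, 0, 16, 0, 0, 0, 0, 14], [0, 9, 0,
   20, 0, 0, 0, 15, 0, 0, 0, 12], [0, 24, 0, 0, 14, 0, 21, 0, 18, 0, 0, 0], [0, 10, 0, 0, 15, 0, 20, 0, 0, 0,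
   0, 17], [0, 25, 0, 0, 22, 0, 0, 21, 0, 20, 0, 0], [0, 11, 0, 0, 16, 0, 0, 18, 0, 0, 0, 19], [0, 26, 0, 0,
   23, 0, 0, 0, 19, 17, 0, 0], [0, 27, 0, 0, 0, 19, 0, 23, 0, 12, 0, 0], [0, 28, 0, 0, 0, 21, 0, 0, 22, 13, 0,
   0], [0, 0, 17, 0, 30, 0, 26, 0, 0, 0, 0, 0], [0, 0, 19, 0, 27, 0, 0, 26, 0, 1, 0, 0], [0, 0, 21, 0, 28, 0,
   0, 0, 25, 24, 0, 0], [0, 0, 22, 0, 0, 25, 0, 28, 0, 2, 0, 0], [0, 0, 23, 0, 0, 26, 0, 0, 27, 29, 0, 0], [0,
   0, 31, 0, 0, 30, 0, 0, 3, 0, 28, 0], [0, 0, 32, 0, 0, 0, 29, 0, 4, 0, 24, 0], [0, 0, 0, 29, 0, 32, 0, 0, 6,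
   0, 13, 0], [0, 0, 0, 30, 0, 0, 31, 0, 7, 0, 14, 0]]

/-- facet `i` -/
def fac (i : Fin 33) : Finset (Fin 24) := Finset.univ.filter (fun v => (FM.getD i.val 0).testBit v.val = true)

def lmz (i : Fin 33) (a : Fin 4) : ℤ := (LM.getD i.val []).getD a.val 0

def dmz (i : Fin 33) (v : Fin 24) (a : Fin 4) : ℤ := ((DM.getD i.val []).getD v.val []).getD a.val 0

def pz (v : Fin 24) (a : Fin 4) : ℤ := co v a.val

theorem mem_fac (i : Fin 33) (v : Fin 24) : v ∈ fac i ↔ (FM.getD i.val 0).testBit v.val = true := by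
  simp [fac]

/-- the linear form with integer coefficients `c / 12` -/
noncomputable def form (c : Fin 4 → ℤ) : (Fin 4 → ℝ) →ₗ[ℝ] ℝ where
  toFun x := (∑ a, (c a : ℝ) * x a) / 12
  map_add' x y := by
    simp only [Pi.add_apply, mul_add, Finset.sum_add_distrib, add_div]
  map_smul' r x := by
    simp only [Pi.smul_apply, smul_eq_mul, RingHom.id_apply]
    rw [← mul_div_assoc, Finset.mul_sum]
    congr 1
    exact Finset.sum_congr rfl (fun a _ => by ring)

theorem form_p4 (c : Fin 4 → ℤ) (v : Fin 24) : form c (p4 v) = ((∑ a, c a * pz v a : ℤ) : ℝ) / 12 := by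
  show (∑ a, (c a : ℝ) * p4 v a) / 12 = _
  push_cast
  rfl

/-- clique enumeration: every clique of vertices below `k` inside `cand`, together with `cur`, is in a facet -/
def chk : ℕ → ℕ → ℕ → Bool
  | 0, _, cur => FM.any (fun f => f &&& cur == cur)
  | k + 1, cand, cur =>
    chk k cand cur && (if cand.testBit k then chk k (cand &&& (M0.getD k 0)) (cur ||| 2 ^ k) else true)

theorem chk_sound : ∀ (k cand cur : ℕ), chk k cand cur = true → ∀ σ : Finset ℕ,
    (∀ x ∈ σ, x < k ∧ cand.testBit x = true) → (∀ x ∈ σ, ∀ y ∈ σ, (M0.getD x 0).testBit y = true) →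
    ∃ f ∈ FM, (∀ x ∈ σ, f.testBit x = true) ∧ (∀ x, cur.testBit x = true → f.testBit x = true)
  | 0, cand, cur => by
    intro h σ hσ _
    unfold chk at h
    rw [List.any_eq_true] at h
    obtain ⟨f, hf, h2⟩ := h
    refine ⟨f, hf, fun x hx => absurd (hσ x hx).1 (Nat.not_lt_zero x), fun x hx => ?_⟩
    have h3 : f &&& cur = cur := by simpa using h2
    have := congrArg (fun m => m.testBit x) h3
    simp only [Nat.testBit_and] at this
    rw [hx, Bool.and_true] at this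
    exact this
  | k + 1, cand, cur => by
    intro h σ hσ hc
    unfold chk at h
    rw [Bool.and_eq_true] at h
    by_cases hk : k ∈ σ
    · have hb : cand.testBit k = true := (hσ k hk).2
      have h2 := h.2
      rw [if_pos hb] at h2
      obtain ⟨f, hf, h3, h4⟩ := chk_sound k _ _ h2 (σ.erase k)
        (fun x hx => by
          have hx' := Finset.mem_of_mem_erase hx
          have hne := Finset.ne_of_mem_erase hx
          refine ⟨by have := (hσ x hx').1; omega, ?_⟩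
          rw [Nat.testBit_and, (hσ x hx').2, hc k hk x hx']
          rfl)
        (fun x hx y hy => hc x (Finset.mem_of_mem_erase hx) y (Finset.mem_of_mem_erase hy))
      refine ⟨f, hf, fun x hx => ?_, fun x hx => ?_⟩
      · by_cases hxk : x = k
        · subst hxk
          apply h4
          rw [Nat.testBit_or, Nat.testBit_two_pow_self, Bool.or_true]
        · exact h3 x (Finset.mem_erase.2 ⟨hxk, hx⟩)
      · apply h4
        rw [Nat.testBit_or, hx, Bool.true_or]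
    · obtain ⟨f, hf, h3, h4⟩ := chk_sound k _ _ h.1 σ
        (fun x hx => ⟨by
          have := (hσ x hx).1
          have hne : x ≠ k := by rintro rfl; exact hk hx
          omega, (hσ x hx).2⟩) hc
      exact ⟨f, hf, h3, h4⟩

theorem chk_true : chk 12 4095 0 = true := by decide +kernel

theorem lt12 : ∀ x : Fin 24, ofMasks M0 x x = true → x.val < 12 := by decide +kernel

theorem face_fac (σ : Finset (Fin 24)) (h : Face (ofMasks M0) σ) : ∃ i, σ ⊆ fac i := by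
  obtain ⟨f, hf, h1, -⟩ := chk_sound 12 4095 0 chk_true (σ.image Fin.val)
    (fun x hx => by
      obtain ⟨y, hy, rfl⟩ := Finset.mem_image.1 hx
      have h12 := lt12 y (h y hy y hy)
      refine ⟨h12, ?_⟩
      have : ∀ z : ℕ, z < 12 → (4095 : ℕ).testBit z = true := by decide +kernel
      exact this _ h12)
    (fun x hx y hy => by
      obtain ⟨x', hx', rfl⟩ := Finset.mem_image.1 hx
      obtain ⟨y', hy', rfl⟩ := Finset.mem_image.1 hy
      exact h x' hx' y' hy')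
  obtain ⟨i, hi, he⟩ := List.mem_iff_getElem.1 hf
  have hi' : i < 33 := hi
  refine ⟨⟨i, hi'⟩, fun x hx => ?_⟩
  rw [mem_fac]
  show (FM.getD i 0).testBit x.val = true
  rw [List.getD_eq_getElem FM 0 hi, he]
  exact h1 x.val (Finset.mem_image_of_mem _ hx)

theorem fac_face : ∀ i : Fin 33, ∀ x : Fin 24, (FM.getD i.val 0).testBit x.val = true → ∀ y : Fin 24,
    (FM.getD i.val 0).testBit y.val = true → ofMasks M0 x y = true := by decide +kernel

theorem lam_one : ∀ i : Fin 33, ∀ v : Fin 24, (FM.getD i.val 0).testBit v.val = true →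
    ∑ a, lmz i a * pz v a = 12 := by decide +kernel

theorem lam_lt : ∀ i : Fin 33, ∀ v : Fin 24, ofMasks M0 v v = true → (FM.getD i.val 0).testBit v.val = false →
    ∑ a, lmz i a * pz v a < 12 := by decide +kernel

theorem dual_one : ∀ i : Fin 33, ∀ u : Fin 24, (FM.getD i.val 0).testBit u.val = true → ∀ v : Fin 24,
    (FM.getD i.val 0).testBit v.val = true → ∑ a, dmz i u a * pz v a = if u = v then 12 else 0 := by
  decide +kernel

theorem dual_sum : ∀ i : Fin 33, ∀ a b : Fin 4,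
    (∑ v : Fin 24, if (FM.getD i.val 0).testBit v.val = true then dmz i v b * pz v a else 0) =
      if a = b then 12 else 0 := by
  decide +kernel

theorem nb_ok : ∀ i : Fin 33, ∀ v : Fin 24, (FM.getD i.val 0).testBit v.val = true →
    ∃ j : Fin 33, (∀ u : Fin 24, u ≠ v → (FM.getD i.val 0).testBit u.val = true →
      (FM.getD j.val 0).testBit u.val = true) ∧ (FM.getD j.val 0).testBit v.val = false := by
  decide +kernel

theorem symm0 : ∀ x y : Fin 24, ofMasks M0 x y = ofMasks M0 y x := by decide +kernel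

theorem refl0 : ∀ x y : Fin 24, ofMasks M0 x y = true → ofMasks M0 x x = true := by decide +kernel

theorem pf_QF (hC : T_CVX) : T_QF := by
  refine ⟨?_, ⟨symm0, refl0⟩⟩
  refine hC (Fin 24) (Fin 4 → ℝ) (Fin 33) inferInstance inferInstance inferInstance inferInstance inferInstance
    ⟨0⟩ (ofMasks M0) p4 fac (fun i => form (lmz i)) (fun i v => form (dmz i v)) face_fac ?_ ?_ ?_ ?_ ?_ ?_
  · intro i x hx y hy
    exact fac_face i x ((mem_fac i x).1 hx) y ((mem_fac i y).1 hy)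
  · intro i v hv
    show form (lmz i) (p4 v) = 1
    rw [form_p4, lam_one i v ((mem_fac i v).1 hv)]
    norm_num
  · intro i v hv hn
    show form (lmz i) (p4 v) < 1
    have hn' : (FM.getD i.val 0).testBit v.val = false := by
      rw [mem_fac] at hn
      exact Bool.eq_false_iff.2 hn
    have h := lam_lt i v hv hn'
    rw [form_p4]
    have h2 : ((∑ a, lmz i a * pz v a : ℤ) : ℝ) < 12 := by exact_mod_cast h
    linarith
  · intro i u hu v hv
    show form (dmz i u) (p4 v) = _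
    rw [form_p4, dual_one i u ((mem_fac i u).1 hu) v ((mem_fac i v).1 hv)]
    split_ifs <;> norm_num
  · intro i x
    funext b
    rw [Finset.sum_apply]
    show x b = ∑ v ∈ fac i, (form (dmz i v) x) * p4 v b
    have h1 : ∀ v, form (dmz i v) x * p4 v b = ∑ a, ((dmz i v a * pz v b : ℤ) : ℝ) * x a / 12 := by
      intro v
      show (∑ a, (dmz i v a : ℝ) * x a) / 12 * p4 v b = _
      rw [div_mul_eq_mul_div, Finset.sum_mul, Finset.sum_div]
      refine Finset.sum_congr rfl (fun a _ => ?_)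
      show (dmz i v a : ℝ) * x a * ((pz v b : ℤ) : ℝ) / 12 = _
      push_cast
      ring
    rw [Finset.sum_congr rfl (fun v _ => h1 v)]
    rw [Finset.sum_comm]
    have h2 : ∀ a, ∑ v ∈ fac i, ((dmz i v a * pz v b : ℤ) : ℝ) * x a / 12 =
        (if b = a then 1 else 0) * x a := by
      intro a
      rw [← Finset.sum_div, ← Finset.sum_mul]
      have h3 := dual_sum i b a
      have h4 : (∑ v ∈ fac i, ((dmz i v a * pz v b : ℤ) : ℝ)) = ((if b = a then 12 else 0 : ℤ) : ℝ) := by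
        rw [← h3]
        push_cast
        unfold fac
        rw [Finset.sum_filter]
      rw [h4]
      split_ifs <;> push_cast <;> ring
    rw [Finset.sum_congr rfl (fun a _ => h2 a)]
    simp
  · intro i v hv
    obtain ⟨j, h1, h2⟩ := nb_ok i v ((mem_fac i v).1 hv)
    refine ⟨j, fun u hu => ?_, ?_⟩
    · rw [mem_fac]
      exact h1 u (Finset.ne_of_mem_erase hu) ((mem_fac i u).1 (Finset.mem_of_mem_erase hu))
    · rw [mem_fac, h2]
      exact Bool.false_ne_true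

end Pool.Agent.H76.NP.QF
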