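import Pool.Agent.H76.NP.Targets

/-!
Row SUB of nvp_modules: edge subdivision preserves complete fans.
-/

set_option autoImplicit false

namespace Pool.Agent.H76.NP

section

variable {V E : Type} [Fintype V] [DecidableEq V] [AddCommGroup E] [Module ℝ E]

omit [Fintype V] in
theorem isCx_sub {A : V → V → Bool} (hA : IsCx A) {u v w : V} (huv : u ≠ v) (hA1 : A u v = true)
    (hw : ∀ y, A w y = false) : IsCx (sub A u v w) := by
  have hwu : w ≠ u := by rintro rfl; rw [hw v] at hA1; exact Bool.false_ne_true hA1
  have hwv : w ≠ v := by rintro rfl; rw [hA.symm u w, hw u] at hA1; exact Bool.false_ne_true hA1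
  constructor
  · intro x y
    unfold sub
    by_cases hx : x = w
    · by_cases hy : y = w
      · simp [hx, hy]
      · simp [hx, hy]
    · by_cases hy : y = w
      · simp [hx, hy]
      · simp only [hx, hy, if_false]
        by_cases h : (x = u ∧ y = v) ∨ (x = v ∧ y = u)
        · have h' : (y = u ∧ x = v) ∨ (y = v ∧ x = u) := by tauto
          simp [h, h']
        · have h' : ¬ ((y = u ∧ x = v) ∨ (y = v ∧ x = u)) := by tauto
          simp only [h, h', if_false]
          exact hA.symm x y
  · intro x y h
    unfold sub at h ⊢
    by_cases hx : x = w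
    · simp [hx]
    · simp only [hx, if_false]
      have hne : ¬ ((x = u ∧ x = v) ∨ (x = v ∧ x = u)) := by
        rintro (⟨h1, h2⟩ | ⟨h1, h2⟩)
        · exact huv (h1.symm.trans h2)
        · exact huv (h2.symm.trans h1)
      simp only [hne, if_false]
      simp only [hx, if_false] at h
      by_cases hy : y = w
      · simp only [hy, if_true, Bool.and_eq_true] at h
        exact hA.refl x u (by rw [hA.symm]; exact h.1)
      · simp only [hy, if_false] at h
        by_cases h2 : (x = u ∧ y = v) ∨ (x = v ∧ y = u)
        · simp [h2] at h
        · simp only [h2, if_false] at h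
          exact hA.refl x y h

/-- the vector which moves the amount `m` from `u` and `v` to `w` -/
def mv (c : V → ℝ) (u v w : V) (m : ℝ) : V → ℝ := fun x =>
  c x - (if x = u then m else 0) - (if x = v then m else 0) + (if x = w then m else 0)

theorem sum_mv (p : V → E) (c : V → ℝ) (u v w : V) (m : ℝ) (hp : p w = p u + p v) :
    ∑ x, mv c u v w m x • p x = ∑ x, c x • p x := by
  have h1 : ∀ x, mv c u v w m x • p x = c x • p x - (if x = u then m • p x else 0)
      - (if x = v then m • p x else 0) + (if x = w then m • p x else 0) := by
    intro x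
    unfold mv
    rw [add_smul, sub_smul, sub_smul]
    simp only [ite_smul, zero_smul]
  rw [Finset.sum_congr rfl (fun x _ => h1 x)]
  rw [Finset.sum_add_distrib, Finset.sum_sub_distrib, Finset.sum_sub_distrib]
  simp only [Finset.sum_ite_eq', Finset.mem_univ, if_true]
  rw [hp, smul_add]
  abel

theorem fan_sub {A : V → V → Bool} (hA : IsCx A) {p : V → E} {u v w : V} (huv : u ≠ v) (hA1 : A u v = true)
    (hw : ∀ y, A w y = false) (hp : p w = p u + p v) (hF : Fan A p) : Fan (sub A u v w) p := by
  have hwu : w ≠ u := by rintro rfl; rw [hw v] at hA1; exact Bool.false_ne_true hA1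
  have hwv : w ≠ v := by rintro rfl; rw [hA.symm u w, hw u] at hA1; exact Bool.false_ne_true hA1
  have huu : A u u = true := hA.refl u v hA1
  have hvv : A v v = true := hA.refl v u (by rw [hA.symm]; exact hA1)
  have hAvu : A v u = true := by rw [hA.symm]; exact hA1
  -- facts on `sub`
  have s1 : ∀ x y, x ≠ w → y ≠ w → ¬ ((x = u ∧ y = v) ∨ (x = v ∧ y = u)) → sub A u v w x y = A x y := by
    intro x y hx hy h
    simp only [sub, hx, hy, h, if_false]
  have s2 : ∀ y, y ≠ w → sub A u v w w y = (A u y && A v y) := by
    intro y hy
    simp only [sub, hy, if_true, if_false]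
  have s2' : ∀ y, y ≠ w → sub A u v w y w = (A u y && A v y) := by
    intro y hy
    simp only [sub, hy, if_true, if_false]
  have s3 : sub A u v w w w = true := by simp [sub]
  have s4 : sub A u v w u v = false := by
    simp [sub, hwu.symm, hwv.symm]
  intro x
  obtain ⟨c, ⟨hc0, hcA, hcx⟩, hcu⟩ := hF x
  have hcw : c w = 0 := by
    by_contra h
    have := hcA w w h h
    rw [hw w] at this
    exact Bool.false_ne_true this
  refine ⟨mv c u v w (min (c u) (c v)), ⟨?_, ?_, ?_⟩, ?_⟩
  · intro y
    have h1 : 0 ≤ min (c u) (c v) := le_min (hc0 u) (hc0 v)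
    unfold mv
    by_cases hyu : y = u
    · subst hyu
      simp only [if_true, huv, hwu.symm, if_false]
      have := min_le_left (c y) (c v)
      linarith
    · by_cases hyv : y = v
      · subst hyv
        simp only [if_true, hyu, hwv.symm, if_false]
        have := min_le_right (c u) (c y)
        linarith
      · simp only [hyu, hyv, if_false]
        have := hc0 y
        split_ifs <;> linarith
  · -- support
    have hm0 : 0 ≤ min (c u) (c v) := le_min (hc0 u) (hc0 v)
    -- key facts
    have hsup : ∀ y, y ≠ w → mv c u v w (min (c u) (c v)) y ≠ 0 → c y ≠ 0 := by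
      intro y hy h h0
      apply h
      have hmu : min (c u) (c v) ≤ c u := min_le_left _ _
      have hmv : min (c u) (c v) ≤ c v := min_le_right _ _
      unfold mv
      by_cases hyu : y = u
      · subst hyu
        have : min (c y) (c v) = 0 := le_antisymm (by rw [← h0]; exact min_le_left _ _) hm0
        rw [this]; simp [h0]
      · by_cases hyv : y = v
        · subst hyv
          have : min (c u) (c y) = 0 := le_antisymm (by rw [← h0]; exact min_le_right _ _) hm0
          rw [this]; simp [h0]
        · simp [hyu, hyv, hy, h0]
    have hnot : ¬ (mv c u v w (min (c u) (c v)) u ≠ 0 ∧ mv c u v w (min (c u) (c v)) v ≠ 0) := by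
      rintro ⟨h1, h2⟩
      rcases le_total (c u) (c v) with h | h
      · apply h1
        simp [mv, huv, hwu.symm, min_eq_left h]
      · apply h2
        simp [mv, huv.symm, hwv.symm, min_eq_right h]
    have hwm : mv c u v w (min (c u) (c v)) w ≠ 0 → c u ≠ 0 ∧ c v ≠ 0 := by
      intro h
      have hval : mv c u v w (min (c u) (c v)) w = min (c u) (c v) := by
        simp [mv, hwu, hwv, hcw]
      rw [hval] at h
      constructor
      · intro h0
        exact h (le_antisymm (by rw [← h0]; exact min_le_left _ _) hm0)
      · intro h0
        exact h (le_antisymm (by rw [← h0]; exact min_le_right _ _) hm0)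
    intro a b ha hb
    by_cases haw : a = w
    · subst haw
      by_cases hbw : b = a
      · subst hbw; exact s3
      · rw [s2 b hbw]
        obtain ⟨h1, h2⟩ := hwm ha
        have hb' := hsup b hbw hb
        rw [hcA u b h1 hb', hcA v b h2 hb']
        rfl
    · by_cases hbw : b = w
      · subst hbw
        rw [s2' a haw]
        obtain ⟨h1, h2⟩ := hwm hb
        have ha' := hsup a haw ha
        rw [hcA u a h1 ha', hcA v a h2 ha']
        rfl
      · have h : ¬ ((a = u ∧ b = v) ∨ (a = v ∧ b = u)) := by
          rintro (⟨h1, h2⟩ | ⟨h1, h2⟩)
          · subst h1; subst h2; exact hnot ⟨ha, hb⟩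
          · subst h1; subst h2; exact hnot ⟨hb, ha⟩
        rw [s1 a b haw hbw h]
        exact hcA a b (hsup a haw ha) (hsup b hbw hb)
  · rw [sum_mv p c u v w _ hp]
    exact hcx
  · -- uniqueness
    rintro c' ⟨h0', hA', hx'⟩
    -- the representation for A
    have hrep : Rep A p x (mv c' u v w (-(c' w))) := by
      refine ⟨?_, ?_, ?_⟩
      · intro y
        have := h0' y
        have hw0 := h0' w
        unfold mv
        by_cases hyw : y = w
        · subst hyw
          simp [hwu, hwv]
        · simp only [hyw, if_false]
          split_ifs <;> linarith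
      · intro a b ha hb
        -- value at w is zero
        have hvw : mv c' u v w (-(c' w)) w = 0 := by simp [mv, hwu, hwv]
        have haw : a ≠ w := by rintro rfl; exact ha hvw
        have hbw : b ≠ w := by rintro rfl; exact hb hvw
        by_cases hz : c' w = 0
        · have he : mv c' u v w (-(c' w)) = c' := by
            funext y
            simp [mv, hz]
          rw [he] at ha hb
          have h := hA' a b ha hb
          by_cases h2 : (a = u ∧ b = v) ∨ (a = v ∧ b = u)
          · rcases h2 with ⟨h1, h2⟩ | ⟨h1, h2⟩
            · rw [h1, h2]; exact hA1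
            · rw [h1, h2]; exact hAvu
          · rw [s1 a b haw hbw h2] at h
            exact h
        · -- `c' w ≠ 0`
          have key : ∀ y, y ≠ w → c' y ≠ 0 → A u y = true ∧ A v y = true := by
            intro y hy hcy
            have h := hA' w y hz hcy
            rw [s2 y hy, Bool.and_eq_true] at h
            exact h
          have hval : ∀ y, y ≠ w → mv c' u v w (-(c' w)) y ≠ 0 → y = u ∨ y = v ∨ c' y ≠ 0 := by
            intro y hy h
            by_contra hh
            push Not at hh
            apply h
            simp [mv, hh.1, hh.2.1, hh.2.2, hy]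
          have hAuy : ∀ y, y ≠ w → mv c' u v w (-(c' w)) y ≠ 0 → A u y = true ∧ A v y = true := by
            intro y hy h
            rcases hval y hy h with h1 | h1 | h1
            · rw [h1]; exact ⟨huu, hAvu⟩
            · rw [h1]; exact ⟨hA1, hvv⟩
            · exact key y hy h1
          rcases hval a haw ha with h1 | h1 | h1
          · rw [h1]; exact (hAuy b hbw hb).1
          · rw [h1]; exact (hAuy b hbw hb).2
          · rcases hval b hbw hb with h2 | h2 | h2
            · rw [h2, hA.symm]; exact (key a haw h1).1
            · rw [h2, hA.symm]; exact (key a haw h1).2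
            · have h := hA' a b h1 h2
              by_cases h3 : (a = u ∧ b = v) ∨ (a = v ∧ b = u)
              · rcases h3 with ⟨h4, h5⟩ | ⟨h4, h5⟩
                · rw [h4, h5]; exact hA1
                · rw [h4, h5]; exact hAvu
              · rw [s1 a b haw hbw h3] at h
                exact h
      · rw [sum_mv p c' u v w _ hp]
        exact hx'
    have hceq := hcu _ hrep
    -- `c u = c' u + c' w`, `c v = c' v + c' w`
    have hu1 : c u = c' u + c' w := by
      rw [← hceq]; simp [mv, huv, hwu.symm]
    have hv1 : c v = c' v + c' w := by
      rw [← hceq]; simp [mv, huv.symm, hwv.symm]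
    have hzero : c' u = 0 ∨ c' v = 0 := by
      by_contra h
      push Not at h
      have := hA' u v h.1 h.2
      rw [s4] at this
      exact Bool.false_ne_true this
    have hmin : min (c u) (c v) = c' w := by
      have h1 := h0' u
      have h2 := h0' v
      rcases hzero with h | h
      · rw [hu1, hv1, h, zero_add]
        exact min_eq_left (by linarith)
      · rw [hu1, hv1, h, zero_add]
        exact min_eq_right (by linarith)
    funext y
    rw [hmin, ← hceq]
    unfold mv
    by_cases hyw : y = w
    · subst hyw
      simp [hwu, hwv]
    · simp only [hyw, if_false]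
      split_ifs <;> ring

end

theorem pf_SUB : T_SUB := by
  intro V E _ _ _ _ A p u v w hA huv hA1 hw hp hF
  exact ⟨fan_sub hA huv hA1 hw hp hF, isCx_sub hA huv hA1 hw⟩

end Pool.Agent.H76.NP
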