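import Pool.Agent.H76.NP.Defs

set_option autoImplicit false

namespace Pool.Agent.H76.NP

open Polynomial

/-- row SUB: edge subdivision preserves fans -/
def T_SUB : Prop :=
  ∀ (V E : Type) (_ : Fintype V) (_ : DecidableEq V) (_ : AddCommGroup E) (_ : Module ℝ E)
    (A : V → V → Bool) (p : V → E) (u v w : V),
    IsCx A → u ≠ v → A u v = true → (∀ y, A w y = false) → p w = p u + p v → Fan A p →
      Fan (sub A u v w) p ∧ IsCx (sub A u v w)

/-- row SUS: suspension preserves fans -/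
def T_SUS : Prop :=
  ∀ (V E : Type) (_ : Fintype V) (_ : DecidableEq V) (_ : AddCommGroup E) (_ : Module ℝ E)
    (A : V → V → Bool) (p : V → E) (p' : V → E × ℝ) (n s : V),
    IsCx A → n ≠ s → (∀ y, A n y = false) → (∀ y, A s y = false) →
    (∀ v, A v v = true → p' v = (p v, 0)) → p' n = (0, 1) → p' s = (0, -1) → Fan A p →
      Fan (susp A n s) p' ∧ IsCx (susp A n s)

/-- row CVX: convexity criterion. `F i` are the facets, `lam i` the supporting functionals, `dual i v` the dual basis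
of facet `i`. -/
def T_CVX : Prop :=
  ∀ (V E ι : Type) (_ : Fintype V) (_ : DecidableEq V) (_ : AddCommGroup E) (_ : Module ℝ E) (_ : Fintype ι)
    (_ : Nonempty ι) (A : V → V → Bool) (p : V → E) (F : ι → Finset V) (lam : ι → E →ₗ[ℝ] ℝ)
    (dual : ι → V → E →ₗ[ℝ] ℝ),
    (∀ σ : Finset V, Face A σ → ∃ i, σ ⊆ F i) →
    (∀ i, Face A (F i)) →
    (∀ i, ∀ v ∈ F i, lam i (p v) = 1) →
    (∀ i v, A v v = true → v ∉ F i → lam i (p v) < 1) →
    (∀ i, ∀ u ∈ F i, ∀ v ∈ F i, dual i u (p v) = if u = v then 1 else 0) →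
    (∀ i x, x = ∑ v ∈ F i, dual i v x • p v) →
    (∀ i, ∀ v ∈ F i, ∃ j, (F i).erase v ⊆ F j ∧ v ∉ F j) →
      Fan A p

/-- row QF: the fan of `Q` in dimension 4 -/
def T_QF : Prop := Fan (ofMasks M0) p4 ∧ IsCx (ofMasks M0)

/-- row CPX: the geometric simplicial complex of a clique complex, with unit vectors as vertices -/
def T_CPX : Prop :=
  ∀ (n : ℕ) (A : Fin n → Fin n → Bool), IsCx A →
    ∃ K : Geometry.SimplicialComplex ℝ (EuclideanSpace ℝ (Fin n)),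
      (∀ s, s ∈ K.faces ↔ ∃ σ : Finset (Fin n), σ.Nonempty ∧ Face A σ ∧
        (s : Set (EuclideanSpace ℝ (Fin n))) = (fun v => EuclideanSpace.single v (1 : ℝ)) '' (σ : Set (Fin n))) ∧
      (∀ x : EuclideanSpace ℝ (Fin n), x ∈ K.space ↔
        (∀ v, 0 ≤ x v) ∧ ∑ v, x v = 1 ∧ ∀ u v, x u ≠ 0 → x v ≠ 0 → A u v = true)

/-- row SPH: the space of a complete fan is a sphere -/
def T_SPH : Prop :=
  ∀ (n d : ℕ) (E : Type) (_ : NormedAddCommGroup E) (_ : NormedSpace ℝ E) (_ : FiniteDimensional ℝ E)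
    (A : Fin n → Fin n → Bool) (p : Fin n → E), Module.finrank ℝ E = d → Fan A p →
    ∀ S : Set (EuclideanSpace ℝ (Fin n)),
      (∀ x : EuclideanSpace ℝ (Fin n), x ∈ S ↔
        (∀ v, 0 ≤ x v) ∧ ∑ v, x v = 1 ∧ ∀ u v, x u ≠ 0 → x v ≠ 0 → A u v = true) →
      Nonempty (S ≃ₜ Metric.sphere (0 : EuclideanSpace ℝ (Fin d)) 1)

/-- row FIN: finiteness, flagness and the face sum of the complex of row CPX -/
def T_FIN : Prop :=
  ∀ (n : ℕ) (A : Fin n → Fin n → Bool), IsCx A →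
    ∀ K : Geometry.SimplicialComplex ℝ (EuclideanSpace ℝ (Fin n)),
      (∀ s, s ∈ K.faces ↔ ∃ σ : Finset (Fin n), σ.Nonempty ∧ Face A σ ∧
        (s : Set (EuclideanSpace ℝ (Fin n))) = (fun v => EuclideanSpace.single v (1 : ℝ)) '' (σ : Set (Fin n))) →
      K.faces.Finite ∧
      (∀ (_ : DecidableEq (EuclideanSpace ℝ (Fin n))) (s : Finset (EuclideanSpace ℝ (Fin n))), s.Nonempty →
        (∀ x ∈ s, ∀ y ∈ s, ({x, y} : Finset (EuclideanSpace ℝ (Fin n))) ∈ K.faces) → s ∈ K.faces) ∧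
      (∀ g : ℕ → ℤ[X], g 0 + (∑ᶠ (σ : Finset (EuclideanSpace ℝ (Fin n))) (_ : σ ∈ K.faces), g σ.card) =
        ∑ σ ∈ (Finset.univ : Finset (Finset (Fin n))).filter (Face A), g σ.card)

/-- row CNT: the face numbers of the example -/
def T_CNT : Prop :=
  ∀ g : ℕ → ℤ[X], ∑ σ ∈ (Finset.univ : Finset (Finset (Fin 24))).filter (Face (ofMasks MF)), g σ.card =
    g 0 + 24 * g 1 + 201 * g 2 + 743 * g 3 + 1344 * g 4 + 1167 * g 5 + 389 * g 6

/-- row GAM: coefficients of the gamma polynomial -/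
def T_GAM : Prop :=
  ∀ (m : ℕ) (Γ : Finset (Finset (Fin m))), (∀ σ ∈ Γ, 2 * σ.card ≤ 6) →
    (1 + (X : ℤ[X])) ^ 6 + 12 * X * (1 + X) ^ 4 + 33 * X ^ 2 * (1 + X) ^ 2 + X ^ 3 =
      ∑ σ ∈ Γ, (X : ℤ[X]) ^ σ.card * (1 + (X : ℤ[X])) ^ (6 - 2 * σ.card) →
    (Γ.filter (fun σ => σ.card = 1)).card = 12 ∧ (Γ.filter (fun σ => σ.card = 2)).card = 33 ∧
      (Γ.filter (fun σ => σ.card = 3)).card = 1

/-- row MAN: no flag complex has 12 vertices, 33 edges and exactly one triangle -/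
def T_MAN : Prop :=
  ∀ (m : ℕ) (Γ : Finset (Finset (Fin m))),
    (∀ σ ∈ Γ, ∀ τ : Finset (Fin m), τ ⊆ σ → τ ∈ Γ) →
    (∀ s : Finset (Fin m), (∀ x ∈ s, ∀ y ∈ s, ({x, y} : Finset (Fin m)) ∈ Γ) → s ∈ Γ) →
    (Γ.filter (fun σ => σ.card = 1)).card = 12 → (Γ.filter (fun σ => σ.card = 2)).card = 33 →
      (Γ.filter (fun σ => σ.card = 3)).card = 1 → False

/-- row CHN: the chain of two suspensions and eight edge subdivisions -/
def T_CHN : Prop := Fan (ofMasks MF) p6 ∧ IsCx (ofMasks MF)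

end Pool.Agent.H76.NP
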